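import Mathlib
import Pool.Agent.K9h41.LD.Df
import Pool.Agent.K9h41.LD.LeafSub

/-!
# The composite of a number field and a disjoint Galois extension of `ℚ`
-/

set_option autoImplicit false

namespace Pool.Agent.K9h76.LB

open NumberField IntermediateField Polynomial Pool.Agent.K9h41.LD

section comp

variable {F K₀ : Type} [Field F] [NumberField F] [Field K₀] [NumberField K₀] [IsGalois ℚ K₀]

/-- The composite `K = F · K₀` with its Galois group over `F`. -/
theorem exists_comp (hd : ∀ T : IntermediateField ℚ K₀, Nonempty (T →+* F) → T = ⊥) :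
    ∃ (K : Type) (_ : Field K) (_ : NumberField K) (_ : Algebra F K) (_ : IsGalois F K)
      (j : K₀ →+* K) (φ : (K ≃ₐ[F] K) ≃* (K₀ ≃ₐ[ℚ] K₀)), ∀ g x, g (j x) = j (φ g x) := by
  classical
  obtain ⟨α, hα⟩ := Field.exists_primitive_element ℚ K₀
  have hαi : IsIntegral ℚ α := Algebra.IsIntegral.isIntegral α
  let f : ℚ[X] := minpoly ℚ α
  let fF : F[X] := f.map (algebraMap ℚ F)
  let K := fF.SplittingField
  have hfirr : Irreducible f := minpoly.irreducible hαi
  have hfsep : f.Separable := hfirr.separable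
  have hsep : fF.Separable := hfsep.map
  have hfin : Module.Finite F K := inferInstance
  have hNF : NumberField K := NumberField.of_module_finite F K
  have hgal : IsGalois F K := IsGalois.of_separable_splitting_field (p := fF) hsep
  have hspl : (fF.map (algebraMap F K)).Splits := SplittingField.splits fF
  have hmap : f.map (algebraMap ℚ K) = fF.map (algebraMap F K) := by
    rw [Polynomial.map_map]
    congr 1
  have hdeg : (f.map (algebraMap ℚ K)).degree ≠ 0 := by
    rw [degree_map]
    exact (minpoly.degree_pos hαi).ne'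
  obtain ⟨y, hy⟩ := (hmap ▸ hspl : (f.map (algebraMap ℚ K)).Splits).exists_eval_eq_zero hdeg
  have hy' : aeval y f = 0 := by
    rw [aeval_def, ← eval_map]
    exact hy
  let e₀ : ℚ⟮α⟯ ≃ₐ[ℚ] K₀ := (IntermediateField.equivOfEq hα).trans IntermediateField.topEquiv
  let j₀ : ℚ⟮α⟯ →ₐ[ℚ] K := (adjoin.powerBasis hαi).lift y (by
    rw [adjoin.powerBasis_gen, minpoly_gen]
    exact hy')
  let j : K₀ →ₐ[ℚ] K := j₀.comp e₀.symm.toAlgHom
  let _ : Algebra K₀ K := j.toRingHom.toAlgebra
  have hst : IsScalarTower ℚ K₀ K := IsScalarTower.of_algebraMap_eq fun x => (j.commutes x).symm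
  let ρ : (K ≃ₐ[ℚ] K) →* (K₀ ≃ₐ[ℚ] K₀) := AlgEquiv.restrictNormalHom K₀
  let φ : (K ≃ₐ[F] K) →* (K₀ ≃ₐ[ℚ] K₀) := ρ.comp (AlgEquiv.restrictScalarsHom ℚ)
  have hφ : ∀ (g : K ≃ₐ[F] K) (x : K₀), g (j x) = j (φ g x) := fun g x =>
    (AlgEquiv.restrictNormal_commutes (AlgEquiv.restrictScalarsHom ℚ g) K₀ x).symm
  -- the roots of `f` are in the image of `j`
  have hsp0 : (f.map (algebraMap ℚ K₀)).Splits := Normal.splits inferInstance α
  have hroots : ∀ z : K, aeval z fF = 0 → ∃ x : K₀, j x = z := by
    intro z hz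
    have h1 : (f.map (algebraMap ℚ K)).IsRoot z := by
      rw [IsRoot.def, hmap, eval_map, ← aeval_def]
      exact hz
    have h2 : f.map (algebraMap ℚ K) = (f.map (algebraMap ℚ K₀)).map j.toRingHom := by
      rw [Polynomial.map_map]
      congr 1
      exact (j.comp_algebraMap).symm
    rw [h2, IsRoot.def] at h1
    have hne : f.map (algebraMap ℚ K₀) ≠ 0 := Polynomial.map_ne_zero hfirr.ne_zero
    have h3 : z ∈ ((f.map (algebraMap ℚ K₀)).map j.toRingHom).roots :=
      (mem_roots (Polynomial.map_ne_zero hne)).2 h1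
    rw [hsp0.roots_map j.toRingHom] at h3
    obtain ⟨x, -, hx⟩ := Multiset.mem_map.1 h3
    exact ⟨x, hx⟩
  have hinj : Function.Injective φ := by
    rw [injective_iff_map_eq_one]
    intro g hg
    have h1 : ∀ x, g (j x) = j x := by
      intro x
      rw [hφ, hg]
      rfl
    have h2 : (g : K →ₐ[F] K) = AlgHom.id F K := by
      refine AlgHom.ext_of_adjoin_eq_top (s := fF.rootSet K) (SplittingField.adjoin_rootSet fF) ?_
      intro z hz
      obtain ⟨x, hx⟩ := hroots z (mem_rootSet.1 hz).2
      rw [← hx]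
      exact h1 x
    ext z
    exact congrArg (fun u : K →ₐ[F] K => u z) h2
  have hsurj : Function.Surjective φ := by
    rw [← MonoidHom.range_eq_top]
    have h1 : fixedField φ.range = ⊥ := by
      refine hd _ ⟨?_⟩
      have h2 : ∀ x : fixedField φ.range, j (x : K₀) ∈ (⊥ : IntermediateField F K) := by
        intro x
        rw [IsGalois.mem_bot_iff_fixed]
        intro g
        rw [hφ]
        congr 1
        exact x.2 ⟨φ g, ⟨g, rfl⟩⟩
      let u : fixedField φ.range →+* (⊥ : IntermediateField F K) :=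
        (j.toRingHom.comp (fixedField φ.range).val.toRingHom).codRestrict
          (⊥ : IntermediateField F K).toSubfield h2
      exact (botEquiv F K).toRingEquiv.toRingHom.comp u
    have h3 := IntermediateField.fixingSubgroup_fixedField φ.range
    rw [← h3, h1]
    exact IntermediateField.fixingSubgroup_bot
  exact ⟨K, inferInstance, hNF, inferInstance, hgal, j.toRingHom,
    MulEquiv.ofBijective φ ⟨hinj, hsurj⟩, hφ⟩

end comp

end Pool.Agent.K9h76.LB
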