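import Mathlib
import Pool.Agent.K9h86.RT.As

/-!
# The ratios of the critical values and an arbitrary relation between permutation characters

The proof is that of `Pool.Agent.K9h86.RT.assemble` (helper86), for a general relation.
-/

set_option autoImplicit false
set_option linter.unusedSectionVars false

namespace Pool.Agent.K9h76.LB

open NumberField IntermediateField IsDedekindDomain Filter Topology Pool.Agent.R389
  Pool.Agent.K4H74.ST Pool.Agent.K4H74.SC Pool.Agent.K9h41.DC Pool.Agent.K9h86.RT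

variable {F : Type} [Field F] [NumberField F] {E : Type} [Field E] [CharZero E]
  (M : MotiveOver F E) {K : Type} [Field K] [NumberField K] [Algebra F K] [IsGalois F K]

/-- the equality for `k` from those for the fixed fields in a relation between the permutation
characters -/
theorem assemble_gen {V : Subgroup (K ≃ₐ[F] K)} {k : Type} [Field k] [NumberField k] [Algebra F k]
    (hk : Mat V k) {m : ℤ} (hm : IsCritical M m) (hm' : IsCritical M (m + 1))
    [Fintype (Subgroup (K ≃ₐ[F] K))] {c : Subgroup (K ≃ₐ[F] K) → ℤ}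
    (hc2 : ∀ g : K ≃ₐ[F] K, ∑ U, (c U : ℂ) * ind U (fun _ => (1 : ℂ)) g
      = ind V (fun _ => (1 : ℂ)) g)
    (h : ∀ U : Subgroup (K ≃ₐ[F] K), c U ≠ 0 → RatioEquality M (fixedField U) m) :
    RatioEquality M k m := by
  classical
  have hc3 : ∀ g : K ≃ₐ[F] K, ∑ U, c U * (fx U g : ℤ) = fx V g := fun g => by
    have h1 := hc2 g
    rw [ind_one] at h1
    have h2 : ∑ U, (c U : ℂ) * fx U g = fx V g := by
      rw [← h1]
      exact Finset.sum_congr rfl fun U _ => by rw [ind_one]
    exact_mod_cast h2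
  obtain ⟨t, ht0, ht⟩ := delta_key M
  have h' : ∀ U : Subgroup (K ≃ₐ[F] K), ∃ (e : E) (q : ℚ), e ≠ 0 ∧ q ≠ 0 ∧ (c U ≠ 0 →
      ∀ ι : E →+* ℂ, ∃ (f : ℂ → ℂ) (z z' : ℂ), Good M ι (fixedField U) m e
        (q * t ^ Module.finrank F (fixedField U)) f z z') := by
    intro U
    by_cases hU : c U = 0
    · exact ⟨1, 1, one_ne_zero, one_ne_zero, fun h0 => absurd hU h0⟩
    · obtain ⟨e, he, δ, hδ, h2⟩ := h U hU
      obtain ⟨q, hq0, hq⟩ := ht (fixedField U) δ hδ
      refine ⟨e, q, he, hq0, fun _ ι => ?_⟩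
      obtain ⟨f, z, z', h3, h4, h5, h6, h7⟩ := h2 ι
      exact ⟨f, z, z', h3, h4, h5, h6, by rw [h7, hq]⟩
  choose e q he hq0 hg using h'
  obtain ⟨δ, hδ⟩ := isDelta_exists k
  obtain ⟨q', hq'0, hq'⟩ := ht k δ hδ
  have hdeg : ∑ U, c U * (Module.finrank F (fixedField U) : ℤ) = Module.finrank F k := by
    rw [← hk.deg, ← hc3 1]
    exact Finset.sum_congr rfl fun U _ => by rw [(mat_fixed U).deg]
  have hg1 : gam M (m : ℂ) ≠ 0 := gam_ne M fun p hp => by
    rw [Complex.intCast_re]
    exact_mod_cast (hm p hp).1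
  have hg2 : gam M ((m : ℂ) + 1) ≠ 0 := gam_ne M fun p hp => by
    rw [Complex.add_re, Complex.intCast_re, Complex.one_re]
    exact_mod_cast (hm' p hp).1
  refine ⟨(∏ U, e U ^ c U) * ((∏ U, q U ^ c U) / q' : ℚ), ?_, δ, hδ, fun ι => ?_⟩
  · refine mul_ne_zero (Finset.prod_ne_zero_iff.mpr fun U _ => zpow_ne_zero _ (he U)) ?_
    have h1 : (∏ U, q U ^ c U) / q' ≠ 0 :=
      div_ne_zero (Finset.prod_ne_zero_iff.mpr fun U _ => zpow_ne_zero _ (hq0 U)) hq'0
    exact_mod_cast h1
  · have h2 : ∀ U : Subgroup (K ≃ₐ[F] K), ∃ (f : ℂ → ℂ) (z z' : ℂ), z ≠ 0 ∧ z' ≠ 0 ∧ (c U ≠ 0 →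
        Good M ι (fixedField U) m (e U) (q U * t ^ Module.finrank F (fixedField U)) f z z') := by
      intro U
      by_cases hU : c U = 0
      · exact ⟨0, 1, 1, one_ne_zero, one_ne_zero, fun h0 => absurd hU h0⟩
      · obtain ⟨f, z, z', h3⟩ := hg U hU ι
        refine ⟨f, z, z', ?_, h3.ne, fun _ => h3⟩
        rintro rfl
        have h4 := h3.eq
        rw [mul_zero, zero_div] at h4
        have h5 : ι (e U) ≠ 0 := by
          rw [map_ne_zero]
          exact he U
        have h6 : (q U : ℂ) ≠ 0 := by exact_mod_cast hq0 U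
        exact mul_ne_zero h5 (mul_ne_zero h6 (pow_ne_zero _ ht0)) h4.symm
    choose f z z' hz hz' hf using h2
    refine ⟨fun s => ∏ U, f U s ^ c U, ∏ U, z U ^ c U, ∏ U, z' U ^ c U, ⟨fun s => ?_,
      fun s hs => ?_⟩, ?_, ?_, ?_, ?_⟩
    · refine MeromorphicAt.fun_prod fun U _ => ?_
      by_cases hU : c U = 0
      · simp only [hU, zpow_zero]
        exact MeromorphicAt.const 1 s
      · exact ((hf U hU).isL.1 s).fun_zpow _
    · have h3 : ∏ U, f U s ^ c U = Complex.exp (lg M ι k s) := by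
        rw [← lg_rel hk hc2 M ι hs, Complex.exp_sum]
        refine Finset.prod_congr rfl fun U _ => ?_
        by_cases hU : c U = 0
        · rw [hU]
          simp
        · rw [((hf U hU).isL.2 s hs).unique (hasProd_euler M ι hs), ← Complex.exp_int_mul]
      change HasProd _ (∏ U, f U s ^ c U)
      rw [h3]
      exact hasProd_euler M ι hs
    · refine tendsto_finsetProd _ fun U _ => ?_
      by_cases hU : c U = 0
      · simp only [hU, zpow_zero]
        exact tendsto_const_nhds
      · exact (hf U hU).lim.zpow₀ _ (Or.inl (hz U))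
    · refine tendsto_finsetProd _ fun U _ => ?_
      by_cases hU : c U = 0
      · simp only [hU, zpow_zero]
        exact tendsto_const_nhds
      · exact (hf U hU).lim'.zpow₀ _ (Or.inl (hz' U))
    · exact Finset.prod_ne_zero_iff.mpr fun U _ => zpow_ne_zero _ (hz' U)
    · have h3 : (Linf M k m * ∏ U, z U ^ c U) / (Linf M k ((m : ℂ) + 1) * ∏ U, z' U ^ c U)
          = ∏ U, ((Linf M (fixedField U) m * z U) /
            (Linf M (fixedField U) ((m : ℂ) + 1) * z' U)) ^ c U := by
        simp only [div_zpow, mul_zpow]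
        rw [Finset.prod_div_distrib, Finset.prod_mul_distrib, Finset.prod_mul_distrib]
        change ((gam M m) ^ _ * _) / ((gam M ((m : ℂ) + 1)) ^ _ * _)
          = ((∏ U, ((gam M m) ^ _) ^ _) * _) / ((∏ U, ((gam M ((m : ℂ) + 1)) ^ _) ^ _) * _)
        rw [prod_zpow_nat _ hg1 _ _ hdeg, prod_zpow_nat _ hg2 _ _ hdeg]
      have h4 : ∀ U : Subgroup (K ≃ₐ[F] K), ((Linf M (fixedField U) m * z U) /
            (Linf M (fixedField U) ((m : ℂ) + 1) * z' U)) ^ c U
          = (ι (e U) * (q U * t ^ Module.finrank F (fixedField U))) ^ c U := by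
        intro U
        by_cases hU : c U = 0
        · rw [hU, zpow_zero, zpow_zero]
        · rw [(hf U hU).eq]
      rw [h3, Finset.prod_congr rfl (fun U _ => h4 U), hq']
      simp only [mul_zpow]
      rw [Finset.prod_mul_distrib, Finset.prod_mul_distrib, prod_zpow_nat _ ht0 _ _ hdeg,
        map_mul, map_prod, map_ratCast]
      simp only [map_zpow₀]
      have h5 : (q' : ℂ) ≠ 0 := by exact_mod_cast hq'0
      push_cast
      field_simp

end Pool.Agent.K9h76.LB
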