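import Mathlib
import Pool.Agent.K9h41.LD.Df
import Pool.Agent.K9h41.LD.LeafSub
import Pool.Agent.K9h76.LB.Comp

/-!
# The fields between `F` and `F · K₀`
-/

set_option autoImplicit false

namespace Pool.Agent.K9h76.LB

open NumberField IntermediateField Pool.Agent.K9h41.LD

/-- The extension `k` of `F` is the composite of `F` and of a subfield `k₀`, of the same degree over
`ℚ` as `k` over `F`, which is a totally real abelian number field in which all the prime numbers in
`S` split completely and such that no subfield of `k₀` but `ℚ` can be embedded in `F₀`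
(`TestField`). -/
def IsTestExtension (S : Set ℕ) (F₀ F k : Type) [Field F₀] [Field F] [Field k] [NumberField k]
    [Algebra F k] : Prop :=
  ∃ (k₀ : Type) (_ : Field k₀) (_ : NumberField k₀) (j : k₀ →+* k), TestField S F₀ k₀ ∧
    Module.finrank ℚ k₀ = Module.finrank F k ∧ IntermediateField.adjoin F (Set.range j) = ⊤

section sub

variable {F K K₀ : Type} [Field F] [NumberField F] [Field K₀] [NumberField K₀]
  [Field K] [NumberField K] [Algebra F K] [IsGalois F K]

theorem test_of_sub {S : Set ℕ} (hS : ∀ r ∈ S, r.Prime) {F₀ : Type} [Field F₀]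
    (ht : TestField S F₀ K₀) (j : K₀ →+* K) (φ : (K ≃ₐ[F] K) ≃* (K₀ ≃ₐ[ℚ] K₀))
    (hφ : ∀ g x, g (j x) = j (φ g x)) (k : IntermediateField F K) : IsTestExtension S F₀ F k := by
  classical
  have hgal := ht.galois
  have hfin : FiniteDimensional F K := Module.Finite.of_restrictScalars_finite ℚ F K
  let U := k.fixingSubgroup
  let H : Subgroup (K₀ ≃ₐ[ℚ] K₀) := U.map φ.toMonoidHom
  let k₀ := fixedField H
  have hkU : fixedField U = k := IsGalois.fixedField_fixingSubgroup k
  have hmem : ∀ x : k₀, j (x : K₀) ∈ k := by
    intro x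
    rw [← hkU]
    intro g
    change (g : K ≃ₐ[F] K) (j x) = j x
    rw [hφ]
    congr 1
    exact x.2 ⟨φ g, Subgroup.mem_map_of_mem φ.toMonoidHom g.2⟩
  let j' : k₀ →+* k := (j.comp k₀.val.toRingHom).codRestrict k.toSubfield hmem
  refine ⟨k₀, inferInstance, inferInstance, j', ht.sub hS k₀, ?_, ?_⟩
  · -- the degrees
    have h1 : Module.finrank k₀ K₀ = Nat.card H := by
      rw [finrank_fixedField_eq_card]
    have h2 : Module.finrank k K = Nat.card U := by
      rw [IsGalois.card_fixingSubgroup_eq_finrank]
    have h3 : Nat.card H = Nat.card U :=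
      (Nat.card_congr (U.equivMapOfInjective φ.toMonoidHom φ.injective).toEquiv).symm
    have h4 : Module.finrank ℚ K₀ = Module.finrank F K := by
      rw [← IsGalois.card_aut_eq_finrank, ← IsGalois.card_aut_eq_finrank]
      exact (Nat.card_congr φ.toEquiv).symm
    have h5 := Module.finrank_mul_finrank F k K
    have h6 := Module.finrank_mul_finrank ℚ k₀ K₀
    rw [h4, ← h5, h1, h2, h3] at h6
    have h7 : 0 < Nat.card U := Nat.card_pos
    exact Nat.eq_of_mul_eq_mul_right h7 h6
  · -- the generation
    apply IntermediateField.lift_injective k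
    rw [lift_top]
    refine le_antisymm (lift_le _) ?_
    have h1 : fixingSubgroup (lift (IntermediateField.adjoin F (Set.range j'))) ≤ U := by
      intro g hg
      rw [IntermediateField.mem_fixingSubgroup_iff] at hg
      have h2 : φ g ∈ k₀.fixingSubgroup := by
        rw [IntermediateField.mem_fixingSubgroup_iff]
        intro x hx
        have h3 : j x ∈ lift (IntermediateField.adjoin F (Set.range j')) := by
          have h4 : (⟨j x, hmem ⟨x, hx⟩⟩ : k) ∈ IntermediateField.adjoin F (Set.range j') :=
            IntermediateField.subset_adjoin _ _ ⟨⟨x, hx⟩, rfl⟩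
          exact (mem_lift (⟨j x, hmem ⟨x, hx⟩⟩ : k)).2 h4
        have h5 := hg _ h3
        rw [hφ] at h5
        exact j.injective h5
      rw [show k₀.fixingSubgroup = H from IntermediateField.fixingSubgroup_fixedField H] at h2
      obtain ⟨u, hu, hug⟩ := h2
      have h6 : u = g := φ.injective hug
      rw [← h6]
      exact hu
    have h2 := IntermediateField.fixedField_antitone h1
    rw [IsGalois.fixedField_fixingSubgroup, IsGalois.fixedField_fixingSubgroup] at h2
    exact h2

end sub

end Pool.Agent.K9h76.LB
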