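import Mathlib
import Pool.Agent.K9h76.LB.As
import Pool.Agent.K9h76.LB.Sub
import Pool.Agent.K9h41.LD.Rel
import Pool.Agent.K9h41.LD.LeafExt

/-!
# The ratios of the critical values from the base changes to the fields `F · k₀`
-/

set_option autoImplicit false

namespace Pool.Agent.K9h76.LB

open NumberField IntermediateField Pool.Agent.R389 Pool.Agent.K4H74.ST Pool.Agent.K4H74.SC
  Pool.Agent.K9h86.RT Pool.Agent.K9h41.LD

theorem main_lb {F : Type} [Field F] [NumberField F] {E : Type} [Field E] [CharZero E]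
    (M : MotiveOver F E) {m : ℤ} (hm : IsCritical M m) (hm' : IsCritical M (m + 1))
    {p q : ℕ} (hp : p.Prime) (hq : q.Prime) (hp2 : p ≠ 2) (hq2 : q ≠ 2) (hpq : p ≠ q)
    (S : Finset ℕ) (hS : ∀ r ∈ S, r.Prime) (F₀ : Type) [Field F₀] [NumberField F₀] [Algebra F F₀]
    (h : ∀ (k : Type) [Field k] [NumberField k] [Algebra F k],
      Module.finrank F k ∈ ({p, p ^ 2, q, q ^ 2} : Set ℕ) →
        IsTestExtension (S : Set ℕ) F₀ F k → RatioEquality M k m) :
    RatioEquality M F m := by
  classical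
  have : Fact p.Prime := ⟨hp⟩
  have : Fact q.Prime := ⟨hq⟩
  obtain ⟨K₀, iF, iN, ht, hdeg, ⟨e⟩⟩ := exists_test p q hp hq hp2 hq2 S hS F₀
  have hgal₀ := ht.galois
  obtain ⟨K, jF, jN, jA, hgal, j, φ, hφ⟩ := exists_comp (F := F) (K₀ := K₀)
    (fun T hT => ht.disjoint T ⟨(algebraMap F F₀).comp hT.some⟩)
  have hfin : FiniteDimensional F K := Module.Finite.of_restrictScalars_finite ℚ F K
  have : Fintype (Subgroup (K ≃ₐ[F] K)) := Fintype.ofFinite _
  let g : (K ≃ₐ[F] K) ≃* Multiplicative ((ZMod p × ZMod p) × (ZMod q × ZMod q)) := φ.trans e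
  let f : (K ≃ₐ[F] K) →* Multiplicative (ZMod p × ZMod p) :=
    (AddMonoidHom.toMultiplicative (AddMonoidHom.fst _ _)).comp g.toMonoidHom
  let f' : (K ≃ₐ[F] K) →* Multiplicative (ZMod q × ZMod q) :=
    (AddMonoidHom.toMultiplicative (AddMonoidHom.snd _ _)).comp g.toMonoidHom
  have hf : Function.Surjective f := by
    intro y
    obtain ⟨x, hx⟩ := g.surjective (Multiplicative.ofAdd (y.toAdd, 0))
    refine ⟨x, ?_⟩
    change Multiplicative.ofAdd (g x).toAdd.1 = y
    rw [hx]
    rfl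
  have hf' : Function.Surjective f' := by
    intro y
    obtain ⟨x, hx⟩ := g.surjective (Multiplicative.ofAdd (0, y.toAdd))
    refine ⟨x, ?_⟩
    change Multiplicative.ofAdd (g x).toAdd.2 = y
    rw [hx]
    rfl
  obtain ⟨c, hc1, hc2⟩ := exists_rel hpq hf hf'
  refine assemble_gen M (mat_top (K := K)) hm hm' (c := c) (fun x => ?_) fun U hU => ?_
  · rw [hc2 x, ind_top']
  · refine h (fixedField U) ?_ (test_of_sub hS ht j φ hφ (fixedField U))
    have h1 : Module.finrank F (fixedField U) = U.index := by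
      rw [finrank_eq_fixingSubgroup_index, IntermediateField.fixingSubgroup_fixedField]
    rw [h1]
    simpa using hc1 U hU

end Pool.Agent.K9h76.LB
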