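import Mathlib
import Pool.Agent.K9h76.LB.Sub

/-!
# Test extensions: weaker conditions, and the composite of two extensions
-/

set_option autoImplicit false

namespace Pool.Agent.K9h76.LB

open NumberField IntermediateField Pool.Agent.K9h41.LD

theorem IsTestExtension.mono {S S' : Set ℕ} {F₀ F₁ F k : Type} [Field F₀] [Field F₁] [Field F]
    [Field k] [NumberField k] [Algebra F k] (h : IsTestExtension S F₀ F k) (hS : S' ⊆ S)
    (i : F₁ →+* F₀) : IsTestExtension S' F₁ F k := by
  obtain ⟨k₀, _, _, j, ht, h1, h2⟩ := h
  exact ⟨k₀, inferInstance, inferInstance, j,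
    { galois := ht.galois
      comm := ht.comm
      real := ht.real
      split := fun r hr => ht.split r (hS hr)
      disjoint := fun T hT => ht.disjoint T ⟨i.comp hT.some⟩ }, h1, h2⟩

/-- two extensions of a number field are contained in a third -/
theorem exists_sup (F F₁ F₂ : Type) [Field F] [NumberField F] [Field F₁] [NumberField F₁]
    [Field F₂] [NumberField F₂] [Algebra F F₁] [Algebra F F₂] :
    ∃ (F₀ : Type) (_ : Field F₀) (_ : NumberField F₀) (_ : Algebra F F₀),
      Nonempty (F₁ →+* F₀) ∧ Nonempty (F₂ →+* F₀) := by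
  have : FiniteDimensional F F₁ := Module.Finite.of_restrictScalars_finite ℚ F F₁
  have : FiniteDimensional F F₂ := Module.Finite.of_restrictScalars_finite ℚ F F₂
  let i₁ : F₁ →ₐ[F] AlgebraicClosure F := IsAlgClosed.lift
  let i₂ : F₂ →ₐ[F] AlgebraicClosure F := IsAlgClosed.lift
  let L : IntermediateField F (AlgebraicClosure F) := i₁.fieldRange ⊔ i₂.fieldRange
  have h1 : FiniteDimensional F i₁.fieldRange :=
    LinearEquiv.finiteDimensional (AlgEquiv.ofInjectiveField i₁).toLinearEquiv
  have h2 : FiniteDimensional F i₂.fieldRange :=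
    LinearEquiv.finiteDimensional (AlgEquiv.ofInjectiveField i₂).toLinearEquiv
  have hfin : FiniteDimensional F L := IntermediateField.finiteDimensional_sup _ _
  refine ⟨L, inferInstance, NumberField.of_module_finite F L, inferInstance, ?_, ?_⟩
  · exact ⟨((inclusion (le_sup_left : i₁.fieldRange ≤ L)).comp
      i₁.rangeRestrict).toRingHom⟩
  · exact ⟨((inclusion (le_sup_right : i₂.fieldRange ≤ L)).comp
      i₂.rangeRestrict).toRingHom⟩

end Pool.Agent.K9h76.LB
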